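import Pool.Agent.Helper15.ParityApp

/-!
Disjoint rank versus essential rank of matrices: `drk A ≥ erk A / 2` over every field.

The proof identifies the disjoint rank with a linear matroid parity number and uses the
covering half of Lovász's min-max theorem, which is proved in `Pool.Agent.Helper15.Parity`.
-/

open Module

namespace Pool.Agent.Results.MP_852b03_co.DisjointRankHalf

universe u

variable {F : Type u} [Field F] {Q₁ Q₂ : Finset ℕ}

/-- The support of `V` lies in the set `E` of diagonal positions `(x, x)`. -/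
def DiagSupported (V : Matrix Q₁ Q₂ F) : Prop :=
  ∀ (i : Q₁) (j : Q₂), (i : ℕ) ≠ (j : ℕ) → V i j = 0

/-- The essential rank: the least rank of `A + V` with `V` supported on the diagonal. -/
noncomputable def erk (A : Matrix Q₁ Q₂ F) : ℕ :=
  sInf {k : ℕ | ∃ V : Matrix Q₁ Q₂ F, DiagSupported V ∧ (A + V).rank = k}

/-- The restriction of `A` to `X₁ × X₂`. -/
def restrict (A : Matrix Q₁ Q₂ F) {X₁ X₂ : Finset ℕ} (h₁ : X₁ ⊆ Q₁) (h₂ : X₂ ⊆ Q₂) :
    Matrix X₁ X₂ F :=
  Matrix.of fun i j => A ⟨i, h₁ i.2⟩ ⟨j, h₂ j.2⟩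

/-- The disjoint rank: the greatest rank of `A (X₁ × X₂)` with `X₁`, `X₂` disjoint. -/
noncomputable def drk (A : Matrix Q₁ Q₂ F) : ℕ :=
  sSup {k : ℕ | ∃ (X₁ X₂ : Finset ℕ) (h₁ : X₁ ⊆ Q₁) (h₂ : X₂ ⊆ Q₂),
    Disjoint X₁ X₂ ∧ (restrict A h₁ h₂).rank = k}

lemma erk_isLeast (A : Matrix Q₁ Q₂ F) :
    IsLeast {k : ℕ | ∃ V : Matrix Q₁ Q₂ F, DiagSupported V ∧ (A + V).rank = k} (erk A) := by
  have hne : {k : ℕ | ∃ V : Matrix Q₁ Q₂ F, DiagSupported V ∧ (A + V).rank = k}.Nonempty :=
    ⟨A.rank, 0, fun _ _ _ => rfl, by rw [add_zero]⟩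
  exact ⟨Nat.sInf_mem hne, fun k hk => Nat.sInf_le hk⟩

lemma drk_bddAbove (A : Matrix Q₁ Q₂ F) :
    BddAbove {k : ℕ | ∃ (X₁ X₂ : Finset ℕ) (h₁ : X₁ ⊆ Q₁) (h₂ : X₂ ⊆ Q₂),
      Disjoint X₁ X₂ ∧ (restrict A h₁ h₂).rank = k} := by
  refine ⟨Q₂.card, ?_⟩
  rintro k ⟨X₁, X₂, h₁, h₂, _, rfl⟩
  refine (Matrix.rank_le_card_width _).trans ?_
  rw [Fintype.card_coe]
  exact Finset.card_le_card h₂

lemma drk_isGreatest (A : Matrix Q₁ Q₂ F) :
    IsGreatest {k : ℕ | ∃ (X₁ X₂ : Finset ℕ) (h₁ : X₁ ⊆ Q₁) (h₂ : X₂ ⊆ Q₂),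
      Disjoint X₁ X₂ ∧ (restrict A h₁ h₂).rank = k} (drk A) := by
  refine ⟨Nat.sSup_mem ⟨_, ∅, ∅, Finset.empty_subset _, Finset.empty_subset _,
    Finset.disjoint_empty_left _, rfl⟩ (drk_bddAbove A), fun k hk => ?_⟩
  exact le_csSup (drk_bddAbove A) hk

open scoped Classical in
/-- The core bound: there are a disjoint pair and a diagonal perturbation realising it. -/
theorem core (A : Matrix Q₁ Q₂ F) : erk A ≤ 2 * drk A := by
  -- extend `A` by zeros to a square matrix on `Q₁ ∪ Q₂`
  set Q : Finset ℕ := Q₁ ∪ Q₂ with hQ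
  let c : Q → (Q → F) := fun j i =>
    if h : (i : ℕ) ∈ Q₁ ∧ (j : ℕ) ∈ Q₂ then A ⟨i, h.1⟩ ⟨j, h.2⟩ else 0
  let r : Q → (Q → F) := fun j => Pi.single j 1
  obtain ⟨Y, t, hY, ht⟩ := Helper15.transversal (F := F) (I := Q) (finrank F (Q → F))
    (Q → F) rfl r c
  have hr : finrank F (Submodule.span F (Set.range r)) = Fintype.card Q := by
    apply finrank_span_eq_card
    exact Pi.linearIndependent_single_one Q F
  rw [hr] at ht
  -- the diagonal perturbation
  let V : Matrix Q₁ Q₂ F := Matrix.of fun i j =>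
    if (i : ℕ) = (j : ℕ) then t ⟨j, Finset.mem_union_right _ j.2⟩ else 0
  have hV : DiagSupported V := by
    intro i j hij
    simp [V, hij]
  let B : Matrix Q Q F := Matrix.of fun i j => (c j + t j • r j) i
  have hB : B.rank ≤ 2 * Y.card := by
    rw [Matrix.rank_eq_finrank_span_cols]
    have h1 : Set.range B.col = Set.range (fun j => c j + t j • r j) := by
      congr 1
    rw [h1]
    omega
  have hAV : A + V = B.submatrix (fun i : Q₁ => ⟨i, Finset.mem_union_left _ i.2⟩)
      (fun j : Q₂ => ⟨j, Finset.mem_union_right _ j.2⟩) := by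
    ext i j
    have hi := i.2
    have hj := j.2
    simp only [Matrix.add_apply, Matrix.submatrix_apply, Matrix.of_apply, V, B, c, r,
      Pi.add_apply, Pi.smul_apply, smul_eq_mul, Pi.single_apply, Subtype.mk.injEq, hi, hj,
      and_self, dite_true]
    by_cases h : (i : ℕ) = (j : ℕ)
    · rw [if_pos h, if_pos h, mul_one]
    · rw [if_neg h, if_neg h, mul_zero]
  have herk : erk A ≤ 2 * Y.card := by
    refine le_trans ((erk_isLeast A).2 ⟨V, hV, rfl⟩) ?_
    rw [hAV]
    exact (Matrix.rank_submatrix_le B _ _).trans hB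
  -- the disjoint pair
  let Yn : Finset ℕ := Y.image Subtype.val
  let X₁ : Finset ℕ := Q₁ \ Yn
  let X₂ : Finset ℕ := Q₂ ∩ Yn
  have h₁ : X₁ ⊆ Q₁ := Finset.sdiff_subset
  have h₂ : X₂ ⊆ Q₂ := Finset.inter_subset_left
  have hdisj : Disjoint X₁ X₂ := by
    rw [Finset.disjoint_left]
    intro x hx hx'
    exact (Finset.mem_sdiff.1 hx).2 (Finset.mem_inter.1 hx').2
  have hdrk : (restrict A h₁ h₂).rank ≤ drk A := (drk_isGreatest A).2 ⟨X₁, X₂, h₁, h₂, hdisj, rfl⟩
  set T : Submodule F (X₁ → F) := Submodule.span F (Set.range (restrict A h₁ h₂).col) with hT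
  have hTr : finrank F T = (restrict A h₁ h₂).rank := by
    rw [Matrix.rank_eq_finrank_span_cols]
  -- extension by zero
  let ι : (X₁ → F) →ₗ[F] (Q → F) :=
    { toFun := fun f i => if h : (i : ℕ) ∈ X₁ then f ⟨i, h⟩ else 0
      map_add' := by
        intro f g
        ext i
        by_cases h : (i : ℕ) ∈ X₁ <;> simp [h]
      map_smul' := by
        intro a f
        ext i
        by_cases h : (i : ℕ) ∈ X₁ <;> simp [h] }
  set S : Submodule F (Q → F) := Submodule.span F (r '' (Y : Set Q)) with hS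
  have hcover : Helper15.isp (F := F) r c Y ≤ S ⊔ T.map ι := by
    apply Finset.sup_le
    intro y hy
    refine sup_le ?_ ?_
    · rw [Submodule.span_singleton_le_iff_mem]
      exact (le_sup_left : S ≤ _) (Submodule.subset_span ⟨y, hy, rfl⟩)
    · rw [Submodule.span_singleton_le_iff_mem]
      have hyn : (y : ℕ) ∈ Yn := Finset.mem_image_of_mem _ hy
      have hdecomp : c y = (∑ z ∈ Y, c y z • r z) +
          ι (fun i : X₁ => c y ⟨i, Finset.mem_union_left _ (h₁ i.2)⟩) := by
        ext i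
        simp only [Pi.add_apply, Finset.sum_apply, Pi.smul_apply, smul_eq_mul, r,
          Pi.single_apply, mul_ite, mul_one, mul_zero, ι, LinearMap.coe_mk, AddHom.coe_mk]
        rw [Finset.sum_ite_eq Y i]
        by_cases hi : i ∈ Y
        · have hin : (i : ℕ) ∉ X₁ := by
            intro h
            exact (Finset.mem_sdiff.1 h).2 (Finset.mem_image_of_mem _ hi)
          rw [if_pos hi, dif_neg hin, add_zero]
        · rw [if_neg hi, zero_add]
          by_cases hi1 : (i : ℕ) ∈ Q₁
          · have hin : (i : ℕ) ∈ X₁ := by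
              refine Finset.mem_sdiff.2 ⟨hi1, ?_⟩
              intro h
              obtain ⟨z, hz, hzi⟩ := Finset.mem_image.1 h
              apply hi
              have : z = i := Subtype.ext hzi
              rwa [← this]
            rw [dif_pos hin]
          · have hin : (i : ℕ) ∉ X₁ := fun h => hi1 (h₁ h)
            rw [dif_neg hin]
            simp only [c]
            rw [dif_neg (fun h => hi1 h.1)]
      rw [hdecomp]
      apply Submodule.add_mem_sup
      · apply Submodule.sum_mem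
        intro z hz
        apply Submodule.smul_mem
        exact Submodule.subset_span ⟨z, hz, rfl⟩
      · apply Submodule.mem_map_of_mem
        by_cases hy2 : (y : ℕ) ∈ Q₂
        · apply Submodule.subset_span
          refine ⟨⟨y, Finset.mem_inter.2 ⟨hy2, hyn⟩⟩, ?_⟩
          ext i
          simp only [c, restrict, Matrix.col_apply, Matrix.of_apply]
          rw [dif_pos ⟨h₁ i.2, hy2⟩]
        · have hz : (fun i : X₁ => c y ⟨i, Finset.mem_union_left _ (h₁ i.2)⟩) = 0 := by
            ext i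
            simp only [c, Pi.zero_apply]
            rw [dif_neg (fun h => hy2 h.2)]
          rw [hz]
          exact Submodule.zero_mem _
  have hfin := Submodule.finrank_mono hcover
  have hsum : finrank F ↥(S ⊔ T.map ι) ≤ finrank F S + finrank F (T.map ι) :=
    Submodule.finrank_add_le_finrank_add_finrank _ _
  have hSle : finrank F S ≤ Y.card := by
    have := finrank_span_finset_le_card (R := F) (Y.image r)
    rw [Finset.coe_image] at this
    exact this.trans Finset.card_image_le
  have hTle : finrank F (T.map ι) ≤ finrank F T := Submodule.finrank_map_le _ _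
  rw [hY] at hfin
  omega

/-- For every field, all finite `Q₁, Q₂ ⊆ ℕ` and every matrix `A : Q₁ × Q₂ → F`, the disjoint
rank of `A` is at least half of its essential rank. -/
theorem result (F : Type u) [Field F] (Q₁ Q₂ : Finset ℕ) (A : Matrix Q₁ Q₂ F) :
    (drk A : ℝ) ≥ 1 / 2 * (erk A : ℝ) := by
  have h : (erk A : ℝ) ≤ 2 * (drk A : ℝ) := by exact_mod_cast core A
  linarith

end Pool.Agent.Results.MP_852b03_co.DisjointRankHalf
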